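import Mathlib

noncomputable section

namespace Pool.Agent.H74C

lemma log_three_half_ge : (0.402 : ℝ) ≤ Real.log (3 / 2) := by
  have h1 : Real.log (9 / 4) = 2 * Real.log (3 / 2) := by
    rw [show (9 / 4 : ℝ) = (3 / 2) ^ 2 by norm_num, Real.log_pow]; norm_num
  have h2 : Real.log (9 / 4) = Real.log 2 + Real.log (9 / 8) := by
    rw [← Real.log_mul (by norm_num) (by norm_num)]; norm_num
  have h3 : 1 - (9 / 8 : ℝ)⁻¹ ≤ Real.log (9 / 8) := Real.one_sub_inv_le_log_of_pos (by norm_num)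
  have h4 := Real.log_two_gt_d9
  norm_num at h3
  linarith

/-- The auxiliary inequality. -/
lemma aux_bound {r : ℝ} (h0 : 0 < r) (h1 : r ≠ 1) :
    7 / 5 ≤ r - 3 / 4 * Real.log r - 5 / 6 * Real.log |r - 1| := by
  have hl := log_three_half_ge
  have hl2 := Real.log_two_gt_d9
  have hl2' := Real.log_two_lt_d9
  rcases lt_or_gt_of_ne h1 with h | h
  · have e1 : Real.log (3 * r) ≤ 3 * r - 1 := Real.log_le_sub_one_of_pos (by linarith)
    have e2 : Real.log (3 / 2 * (1 - r)) ≤ 3 / 2 * (1 - r) - 1 :=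
      Real.log_le_sub_one_of_pos (by linarith)
    rw [Real.log_mul (by norm_num) h0.ne'] at e1
    rw [Real.log_mul (by norm_num) (by linarith)] at e2
    have e3 : Real.log |r - 1| = Real.log (1 - r) := by
      rw [abs_sub_comm, abs_of_pos (by linarith)]
    have e4 : Real.log 3 = Real.log 2 + Real.log (3 / 2) := by
      rw [← Real.log_mul (by norm_num) (by norm_num)]; norm_num
    rw [e3]
    linarith
  · have e1 : Real.log (4 / 9 * r) ≤ 4 / 9 * r - 1 := Real.log_le_sub_one_of_pos (by linarith)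
    have e2 : Real.log (4 / 5 * (r - 1)) ≤ 4 / 5 * (r - 1) - 1 :=
      Real.log_le_sub_one_of_pos (by linarith)
    rw [Real.log_mul (by norm_num) h0.ne'] at e1
    rw [Real.log_mul (by norm_num) (by linarith)] at e2
    have e3 : Real.log |r - 1| = Real.log (r - 1) := by rw [abs_of_pos (by linarith)]
    have e4 : Real.log (4 / 9) = - (Real.log 2 + Real.log (9 / 8)) := by
      rw [← Real.log_mul (by norm_num) (by norm_num), ← Real.log_inv]; norm_num
    have e5 : Real.log (9 / 8) ≤ 9 / 8 - 1 := Real.log_le_sub_one_of_pos (by norm_num)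
    have e6 : Real.log (4 / 5) = - Real.log (5 / 4) := by
      rw [← Real.log_inv]; norm_num
    have e7 : Real.log (5 / 4) ≤ 5 / 4 - 1 := Real.log_le_sub_one_of_pos (by norm_num)
    rw [e3]
    linarith

section galois

variable {L : Type} [Field L] [NumberField L] [IsGalois ℚ L] (ι : L →+* ℂ)

/-- An element fixed by the Galois group, integral, is an integer. -/
lemma exists_int_of_fixed {y : L} (hy : IsIntegral ℤ y) (hf : ∀ σ : L ≃ₐ[ℚ] L, σ y = y) :
    ∃ n : ℤ, y = n := by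
  have h1 : y ∈ (⊥ : IntermediateField ℚ L) := (IsGalois.mem_bot_iff_fixed y).2 hf
  obtain ⟨q, hq⟩ := IntermediateField.mem_bot.1 h1
  have h2 : IsIntegral ℤ q := by
    rw [← hq] at hy
    exact (isIntegral_algebraMap_iff (algebraMap ℚ L).injective).1 hy
  obtain ⟨n, hn⟩ := IsIntegrallyClosed.isIntegral_iff.1 h2
  refine ⟨n, ?_⟩
  rw [← hq, ← hn]
  simp

/-- The norm. -/
lemma one_le_prod {y : L} (hy : IsIntegral ℤ y) (h0 : y ≠ 0) {r : (L ≃ₐ[ℚ] L) → ℝ}
    (hr : ∀ σ, ι (σ y) = (r σ : ℂ)) : 1 ≤ ∏ σ, |r σ| := by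
  have hint : IsIntegral ℤ (∏ σ : L ≃ₐ[ℚ] L, σ y) :=
    IsIntegral.prod _ fun σ _ => hy.map (σ : L →ₐ[ℚ] L)
  have hfix : ∀ τ : L ≃ₐ[ℚ] L, τ (∏ σ : L ≃ₐ[ℚ] L, σ y) = ∏ σ : L ≃ₐ[ℚ] L, σ y := by
    intro τ
    rw [map_prod]
    exact Fintype.prod_equiv (Equiv.mulLeft τ) _ _ fun σ => rfl
  obtain ⟨n, hn⟩ := exists_int_of_fixed hint hfix
  have hne : n ≠ 0 := by
    rintro rfl
    have : (∏ σ : L ≃ₐ[ℚ] L, σ y) ≠ 0 := Finset.prod_ne_zero_iff.2 fun σ _ => by
      simpa using h0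
    exact this (by simpa using hn)
  have h1 : (n : ℂ) = ((∏ σ, r σ : ℝ) : ℂ) := by
    have := congrArg ι hn
    rw [map_prod, map_intCast] at this
    rw [← this, Complex.ofReal_prod]
    exact Finset.prod_congr rfl fun σ _ => hr σ
  have h2 : (n : ℝ) = ∏ σ, r σ := by exact_mod_cast h1
  rw [← Finset.abs_prod, ← h2]
  have : (1 : ℤ) ≤ |n| := Int.one_le_abs hne
  exact_mod_cast this

/-- The trace bound. -/
lemma trace_bound {y : L} (hy : IsIntegral ℤ y) (h0 : y ≠ 0) (h1 : y ≠ 1) {r : (L ≃ₐ[ℚ] L) → ℝ}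
    (hr : ∀ σ, ι (σ y) = (r σ : ℂ)) (hpos : ∀ σ, 0 ≤ r σ) :
    7 / 5 * (Fintype.card (L ≃ₐ[ℚ] L) : ℝ) ≤ ∑ σ, r σ := by
  have hne : ∀ σ, r σ ≠ 0 := by
    intro σ h
    have := hr σ
    rw [h, Complex.ofReal_zero, map_eq_zero, map_eq_zero] at this
    exact h0 this
  have hne1 : ∀ σ, r σ ≠ 1 := by
    intro σ h
    have := hr σ
    rw [h, Complex.ofReal_one] at this
    have h2 : σ y = 1 := ι.injective (by rw [this, map_one])
    exact h1 (σ.injective (by rw [h2, map_one]))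
  have p0 : 1 ≤ ∏ σ, |r σ| := one_le_prod ι hy h0 hr
  have p1 : 1 ≤ ∏ σ, |r σ - 1| := by
    refine one_le_prod ι (y := y - 1) (hy.sub isIntegral_one) (sub_ne_zero.2 h1) fun σ => ?_
    rw [map_sub, map_sub, map_one, map_one, hr σ]
    push_cast
    ring
  have l0 : 0 ≤ ∑ σ, Real.log (r σ) := by
    have h := Real.log_nonneg p0
    rw [Real.log_prod (fun σ _ => abs_ne_zero.2 (hne σ))] at h
    simpa only [Real.log_abs] using h
  have l1 : 0 ≤ ∑ σ, Real.log |r σ - 1| := by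
    have h := Real.log_nonneg p1
    rwa [Real.log_prod (fun σ _ => abs_ne_zero.2 (sub_ne_zero.2 (hne1 σ)))] at h
  have hsum : ∑ _σ : L ≃ₐ[ℚ] L, (7 / 5 : ℝ) ≤
      ∑ σ, (r σ - 3 / 4 * Real.log (r σ) - 5 / 6 * Real.log |r σ - 1|) :=
    Finset.sum_le_sum fun σ _ => aux_bound (lt_of_le_of_ne (hpos σ) (hne σ).symm) (hne1 σ)
  rw [Finset.sum_const, Finset.card_univ, nsmul_eq_mul, Finset.sum_sub_distrib,
    Finset.sum_sub_distrib, ← Finset.mul_sum, ← Finset.mul_sum] at hsum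
  linarith

end galois

end Pool.Agent.H74C
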