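import Pool.Agent.W_7742_h74.CaseA

noncomputable section

namespace Pool.Agent.H74C

open Filter Topology ComplexConjugate

namespace TraceSystem

variable {L : Type} [Field L] [NumberField L] [IsGalois ℚ L] {π : TraceSystem L}

lemma int_square_ineq (m : ℤ) :
    (0 : ℝ) ≤ (m : ℝ) ^ 2 * ((m : ℝ) ^ 2 - 1) * ((m : ℝ) ^ 2 - 4) := by
  have h : 0 ≤ m ^ 2 * (m ^ 2 - 1) * (m ^ 2 - 4) := by
    rcases lt_or_ge (m ^ 2) 9 with h | h
    · have h1 : -3 < m := by nlinarith
      have h2 : m < 3 := by nlinarith
      interval_cases m <;> norm_num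
    · have h1 : 0 ≤ m ^ 2 - 1 := by linarith
      have h2 : 0 ≤ m ^ 2 - 4 := by linarith
      positivity
  exact_mod_cast h

/-- Case IIIa. -/
theorem case_three_a (hO : π.Orthogonal) (hM : π.MultiplicityOne)
    (h2 : fixer π π.yy = ⊤) : False := by
  have ι : L →+* ℂ := Classical.choice inferInstance
  have hsame : ∀ σ : L ≃ₐ[ℚ] L, π.Same (π.ad (em ι σ)) (π.ad (em ι 1)) := fun σ =>
    (same_ad ι).2 (by rw [h2]; trivial)
  choose M hMpos χ hχ using fun σ => hM _ _ (hsame σ)
  set N := ∏ σ, M σ with hN
  have hNpos : 0 < N := Finset.prod_pos fun σ _ => hMpos σ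
  have hdvd : ∀ σ, M σ ∣ N := fun σ => Finset.dvd_prod_of_mem M (Finset.mem_univ σ)
  have hm := (((hO.mean_ad_four N hNpos ι ι).sub (hO.mean_four N hNpos ι)).sub
    ((hO.mean_ad N hNpos ι).const_mul 3)).sub (hasMean_class hNpos)
  obtain ⟨S, hS⟩ := π.exists_bad
  have hnn := hm.nonneg' S (fun p hp hpS => by
    have hg := hS p hp hpS
    change 0 ≤ onClass N (π.ad ι * π.four ι) p - onClass N (π.four ι) p - 3 * onClass N (π.ad ι) p -
      onClass N (fun _ => 1) p
    by_cases hc : p ≡ 1 [MOD N]
    · have hone : ∀ f : ℕ → ℝ, onClass N f p = f p := fun f => by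
        unfold onClass; rw [if_pos hc]
      simp only [hone]
      have hfix : ∀ σ : L ≃ₐ[ℚ] L, σ (π.a p) = π.a p := by
        intro σ
        have hcσ : p ≡ 1 [MOD M σ] := hc.of_dvd (hdvd σ)
        have hnd : ¬ p ∣ M σ := by
          intro hd
          have h1 : p ≡ 1 [MOD p] := hcσ.of_dvd hd
          have h2 : 1 ≡ 0 [MOD p] := h1.symm.trans (by simp [Nat.ModEq])
          have h3 := (Nat.modEq_zero_iff_dvd).1 h2
          exact hp.one_lt.ne' (Nat.dvd_one.1 h3)
        have h1 := hχ σ p hg hnd
        have h2 : (p : ZMod (M σ)) = 1 := by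
          have := (ZMod.natCast_eq_natCast_iff p 1 (M σ)).2 hcσ
          simpa using this
        rw [h2, map_one, one_mul] at h1
        exact ι.injective h1
      obtain ⟨m, hm'⟩ := exists_int_of_fixed (π.integral p hg.1 hg.2) hfix
      have hu : π.u ι p = (m : ℝ) ^ 2 := by
        unfold u
        rw [hm', map_intCast, Complex.norm_intCast, sq_abs]
      have := int_square_ineq m
      simp only [Pi.mul_apply, ad, four, hu]
      nlinarith
    · have hone : ∀ f : ℕ → ℝ, onClass N f p = 0 := fun f => by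
        unfold onClass; rw [if_neg hc]
      simp only [hone]
      norm_num)
  have hpos : (0 : ℝ) < ((N.totient : ℕ) : ℝ)⁻¹ := by
    have : 0 < N.totient := Nat.totient_pos.2 hNpos
    positivity
  linarith

lemma real_golden {A : ℝ} (h : A ^ 2 - 3 * A + 1 = 0) : A = (3 + √5) / 2 ∨ A = (3 - √5) / 2 := by
  have h5 : √5 ^ 2 = 5 := Real.sq_sqrt (by norm_num)
  have : (A - (3 + √5) / 2) * (A - (3 - √5) / 2) = 0 := by nlinarith
  rcases mul_eq_zero.1 this with h | h
  · left; linarith
  · right; linarith

/-- The two kinds of primes. -/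
lemma dichotomy (h4 : fixer π π.zz = ⊤) {p : ℕ} (hp : π.Good p) :
    (∃ n : ℕ, π.yy p = n) ∨ π.yy p ^ 2 - 3 * π.yy p + 1 = 0 := by
  have ι : L →+* ℂ := Classical.choice inferInstance
  obtain ⟨v, hv⟩ := exists_int_of_fixed (zz_integral hp) (fun σ => by
    have : σ ∈ fixer π π.zz := by rw [h4]; trivial
    exact this p hp)
  by_cases hf : ∀ σ : L ≃ₐ[ℚ] L, σ (π.yy p) = π.yy p
  · left
    obtain ⟨n, hn⟩ := exists_int_of_fixed (yy_integral hp) hf
    have h0 : (0 : ℝ) ≤ n := by
      have := u_of_yy hp (q := n) (by rw [hn]; norm_cast) ι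
      have h1 := u_nonneg π ι p
      rw [this] at h1
      exact_mod_cast h1
    have h0' : 0 ≤ n := by exact_mod_cast h0
    refine ⟨n.toNat, ?_⟩
    rw [hn]
    have : ((n.toNat : ℤ) : L) = (n : L) := by rw [Int.toNat_of_nonneg h0']
    rw [← this]
    norm_cast
  · right
    push Not at hf
    obtain ⟨σ, hσ⟩ := hf
    set y := π.yy p with hy
    have e1 : y ^ 2 - 3 * y + 1 = v := hv
    have e2 : (σ y) ^ 2 - 3 * σ y + 1 = v := by
      have := congrArg σ e1
      rw [map_add, map_sub, map_mul, map_pow, map_one, map_ofNat, map_intCast] at this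
      exact this
    have e3 : σ y = 3 - y := by
      have : (σ y - y) * (σ y + y - 3) = 0 := by linear_combination e2 - e1
      rcases mul_eq_zero.1 this with h | h
      · exact absurd (sub_eq_zero.1 h) hσ
      · linear_combination h
    set A := π.u (em ι 1) p with hA
    have hA' : ι y = (A : ℂ) := u_em ι 1 hp
    have hB' : ι (3 - y) = (π.u (em ι σ) p : ℂ) := by
      rw [← e3]; exact u_em ι σ hp
    have hB'' : π.u (em ι σ) p = 3 - A := by
      rw [map_sub, map_ofNat, hA'] at hB'
      exact_mod_cast hB'.symm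
    have hA0 : 0 ≤ A := u_nonneg π _ p
    have hB0 : 0 ≤ 3 - A := by rw [← hB'']; exact u_nonneg π _ p
    have hrat : ∀ q : ℚ, A ≠ q := by
      intro q hq
      apply hσ
      have hyq : y = q := by
        apply ι.injective
        rw [hA', hq, map_ratCast]
        norm_cast
      rw [hyq, map_ratCast]
    have hvr : A * (3 - A) = 1 - (v : ℝ) := by
      have := congrArg ι e1
      rw [map_add, map_sub, map_mul, map_pow, map_one, map_ofNat, map_intCast, hA'] at this
      have h2 : A ^ 2 - 3 * A + 1 = (v : ℝ) := by exact_mod_cast this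
      linarith
    have hv1 : v ≤ 1 := by
      have : (v : ℝ) ≤ 1 := by nlinarith [mul_nonneg hA0 hB0]
      exact_mod_cast this
    have hv2 : -2 < v := by
      have : (-2 : ℝ) < v := by nlinarith [sq_nonneg (A - 3 / 2)]
      exact_mod_cast this
    have : v = -1 ∨ v = 0 ∨ v = 1 := by omega
    rcases this with rfl | rfl | rfl
    · exfalso
      push_cast at hvr
      have : (A - 1) * (A - 2) = 0 := by nlinarith
      rcases mul_eq_zero.1 this with h | h
      · exact hrat 1 (by push_cast; linarith)
      · exact hrat 2 (by push_cast; linarith)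
    · rw [e1]; simp
    · exfalso
      push_cast at hvr
      have : A * (3 - A) = 0 := by linarith
      rcases mul_eq_zero.1 this with h | h
      · exact hrat 0 (by push_cast; linarith)
      · exact hrat 3 (by push_cast; linarith)

end TraceSystem

end Pool.Agent.H74C
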