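import Pool.Agent.W_7742_h74.CaseC

noncomputable section

namespace Pool.Agent.H74C

open Filter Topology ComplexConjugate

namespace TraceSystem

variable {L : Type} [Field L] [NumberField L] [IsGalois ℚ L] {π : TraceSystem L}

lemma ne_nat_golden (n : ℕ) : (n : ℝ) ≠ (3 + √5) / 2 := by
  intro h
  have h5 := sqrt5_bounds
  rcases Nat.lt_or_ge n 3 with hn | hn
  · have : (n : ℝ) ≤ 2 := by exact_mod_cast (by omega : n ≤ 2)
    linarith
  · have : (3 : ℝ) ≤ n := by exact_mod_cast hn
    linarith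

lemma ne_nat_golden' (n : ℕ) : (n : ℝ) ≠ (3 - √5) / 2 := by
  intro h
  have h5 := sqrt5_bounds
  rcases Nat.eq_zero_or_pos n with hn | hn
  · rw [hn] at h; push_cast at h; linarith
  · have : (1 : ℝ) ≤ n := by exact_mod_cast hn
    linarith

lemma dens_zero (ι : L →+* ℂ) (hO : π.Orthogonal) (h4 : fixer π π.zz = ⊤)
    {σ : L ≃ₐ[ℚ] L} (hσ : σ ∉ fixer π π.yy) : HasDensity (fun p => π.u ι p = 0) (1 / 4) := by
  have hb := sqrt5_bounds
  have := density_of ι hO h4 hσ 0 (1 / 12) 0 (1 / 4) (-5 / 12) (1 / 6) (1 / 12)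
    (int_case (by norm_num) (by norm_num) (by norm_num [abs_le]) (by norm_num) (by norm_num) (fun m => by
      have hne : ((m + 5 : ℕ) : ℝ) ≠ 0 := by positivity
      rw [if_neg hne, abs_le]
      have hm : (0 : ℝ) ≤ m := by positivity
      push_cast
      constructor
      · rw [neg_le_iff_add_nonneg]
        ring_nf
        positivity
      · rw [← sub_nonneg]
        ring_nf
        positivity))
    (by rw [if_neg (by linarith)]; norm_num) (by rw [if_neg (by linarith)]; norm_num)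
  norm_num at this
  convert this using 1

lemma dens_one (ι : L →+* ℂ) (hO : π.Orthogonal) (h4 : fixer π π.zz = ⊤)
    {σ : L ≃ₐ[ℚ] L} (hσ : σ ∉ fixer π π.yy) : HasDensity (fun p => π.u ι p = 1) (1 / 3) := by
  have hb := sqrt5_bounds
  have := density_of ι hO h4 hσ 1 (1 / 6) 0 (-2 / 3) (-1 / 6) (1 / 6) (1 / 6)
    (int_case (by norm_num) (by norm_num) (by norm_num [abs_le]) (by norm_num) (by norm_num) (fun m => by
      have hm : (0 : ℝ) ≤ m := by positivity
      have hne : ((m + 5 : ℕ) : ℝ) ≠ 1 := by push_cast; linarith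
      rw [if_neg hne, abs_le]
      push_cast
      constructor
      · rw [neg_le_iff_add_nonneg]
        ring_nf
        positivity
      · rw [← sub_nonneg]
        ring_nf
        positivity))
    (by rw [if_neg (by linarith)]; norm_num) (by rw [if_neg (by linarith)]; norm_num)
  norm_num at this
  convert this using 1

lemma dens_four (ι : L →+* ℂ) (hO : π.Orthogonal) (h4 : fixer π π.zz = ⊤)
    {σ : L ≃ₐ[ℚ] L} (hσ : σ ∉ fixer π π.yy) : HasDensity (fun p => π.u ι p = 4) (1 / 60) := by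
  have hb := sqrt5_bounds
  have := density_of ι hO h4 hσ 4 (-1 / 60) 0 (1 / 60) (1 / 60) (1 / 30) (-1 / 60)
    (int_case (by norm_num) (by norm_num) (by norm_num [abs_le]) (by norm_num) (by norm_num) (fun m => by
      have hm : (0 : ℝ) ≤ m := by positivity
      have hne : ((m + 5 : ℕ) : ℝ) ≠ 4 := by push_cast; linarith
      rw [if_neg hne, abs_le]
      push_cast
      constructor
      · rw [neg_le_iff_add_nonneg]
        ring_nf
        positivity
      · rw [← sub_nonneg]
        ring_nf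
        positivity))
    (by rw [if_neg (by linarith)]; norm_num) (by rw [if_neg (by linarith)]; norm_num)
  norm_num at this
  convert this using 1

lemma dens_golden (ι : L →+* ℂ) (hO : π.Orthogonal) (h4 : fixer π π.zz = ⊤)
    {σ : L ≃ₐ[ℚ] L} (hσ : σ ∉ fixer π π.yy) :
    HasDensity (fun p => π.u ι p = (3 + √5) / 2) (1 / 5) := by
  have hb := sqrt5_bounds
  have h5 := sq5
  have := density_of ι hO h4 hσ ((3 + √5) / 2) (3 / 10 - √5 / 10) (√5 / 5) (1 / 5)
    (1 / 5 - √5 / 5) (-1 / 10 + √5 / 10) (-1 / 5)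
    (by
      intro n
      rw [if_neg (ne_nat_golden n)]
      have e : (0 : ℝ) - (3 / 10 - √5 / 10 + √5 / 5 * ((n : ℝ) - 1) +
        1 / 5 * ((n : ℝ) ^ 2 - 3 * n + 1) + (1 / 5 - √5 / 5) * (((n : ℝ) - 1) * ((n : ℝ) ^ 2 - 3 * n + 1)) +
        (-1 / 10 + √5 / 10) * ((n : ℝ) ^ 2 - 3 * n + 1) ^ 2 + -1 / 5 * ((n : ℝ) - 1) ^ 2) =
        (-((√5 - 1) / 10)) * ((n : ℝ) * (n - 1) * (n - 3) * (n - 4)) := by ring
      rw [e, abs_mul, abs_neg, abs_of_nonneg (by linarith : 0 ≤ (√5 - 1) / 10)]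
      have hQ : |(n : ℝ) * (n - 1) * (n - 3) * (n - 4)| = (n : ℝ) * (n - 1) * (n - 3) * (n - 4) := by
        apply abs_of_nonneg
        have := int_case (f := fun _ => 0) rfl rfl (by norm_num) rfl rfl
          (fun m => by rw [abs_zero]; positivity) n
        simpa using this
      rw [hQ]
      have hQ0 : 0 ≤ (n : ℝ) * (n - 1) * (n - 3) * (n - 4) := by rw [← hQ]; exact abs_nonneg _
      nlinarith)
    (by rw [if_pos rfl]; nlinarith) (by rw [if_neg (by intro h; linarith)]; nlinarith)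
  convert this using 1
  ring

lemma dens_golden' (ι : L →+* ℂ) (hO : π.Orthogonal) (h4 : fixer π π.zz = ⊤)
    {σ : L ≃ₐ[ℚ] L} (hσ : σ ∉ fixer π π.yy) :
    HasDensity (fun p => π.u ι p = (3 - √5) / 2) (1 / 5) := by
  have hb := sqrt5_bounds
  have h5 := sq5
  have := density_of ι hO h4 hσ ((3 - √5) / 2) (3 / 10 + √5 / 10) (-√5 / 5) (1 / 5)
    (1 / 5 + √5 / 5) (-1 / 10 - √5 / 10) (-1 / 5)
    (by
      intro n
      rw [if_neg (ne_nat_golden' n)]
      have e : (0 : ℝ) - (3 / 10 + √5 / 10 + -√5 / 5 * ((n : ℝ) - 1) +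
        1 / 5 * ((n : ℝ) ^ 2 - 3 * n + 1) + (1 / 5 + √5 / 5) * (((n : ℝ) - 1) * ((n : ℝ) ^ 2 - 3 * n + 1)) +
        (-1 / 10 - √5 / 10) * ((n : ℝ) ^ 2 - 3 * n + 1) ^ 2 + -1 / 5 * ((n : ℝ) - 1) ^ 2) =
        ((√5 + 1) / 10) * ((n : ℝ) * (n - 1) * (n - 3) * (n - 4)) := by ring
      rw [e, abs_mul, abs_of_nonneg (by linarith : 0 ≤ (√5 + 1) / 10)]
      have hQ : |(n : ℝ) * (n - 1) * (n - 3) * (n - 4)| = (n : ℝ) * (n - 1) * (n - 3) * (n - 4) := by
        apply abs_of_nonneg
        have := int_case (f := fun _ => 0) rfl rfl (by norm_num) rfl rfl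
          (fun m => by rw [abs_zero]; positivity) n
        simpa using this
      rw [hQ]
      have hQ0 : 0 ≤ (n : ℝ) * (n - 1) * (n - 3) * (n - 4) := by rw [← hQ]; exact abs_nonneg _
      nlinarith)
    (by rw [if_neg (by intro h; linarith)]; nlinarith) (by rw [if_pos rfl]; nlinarith)
  convert this using 1
  ring

/-- The theorem for Galois fields. -/
theorem icosahedral_of_galois (hO : π.Orthogonal) (hM : π.MultiplicityOne) :
    fixer π π.zz = ⊤ ∧ fixer π π.yy ≠ ⊤ := by
  have hne : fixer π π.yy ≠ ⊤ := fun h => case_three_a hO hM h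
  refine ⟨?_, hne⟩
  by_contra h4
  have i4 : (fixer π π.zz).index ≠ 0 := Subgroup.index_ne_zero_of_finite
  have i4' : (fixer π π.zz).index ≠ 1 := fun h => h4 (Subgroup.index_eq_one.1 h)
  have i2 : (fixer π π.yy).index ≠ 0 := Subgroup.index_ne_zero_of_finite
  have i2' : (fixer π π.yy).index ≠ 1 := fun h => hne (Subgroup.index_eq_one.1 h)
  have hdvd : (fixer π π.zz).index ∣ (fixer π π.yy).index := Subgroup.index_dvd_of_le fixer_le
  rcases Nat.lt_or_ge (fixer π π.yy).index 3 with h | h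
  · have h2 : (fixer π π.yy).index = 2 := by omega
    have h3 := Nat.le_of_dvd (by omega) hdvd
    exact case_two hO (by omega) h2
  · exact case_one hO (by omega) h

end TraceSystem

end Pool.Agent.H74C
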