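import Pool.Agent.W_7742_h74.Mean

noncomputable section

namespace Pool.Agent.H74C

open Filter Topology ArithmeticFunction ArithmeticFunction.vonMangoldt

lemma tendsto_residueClass {q : ℕ} [NeZero q] {a : ZMod q} (ha : IsUnit a) :
    Tendsto (fun x : ℝ => (x - 1) * ∑' n, residueClass a n / (n : ℝ) ^ x) (𝓝[>] 1)
      (𝓝 ((q.totient : ℝ)⁻¹)) := by
  have H {x : ℝ} (hx : 1 < x) :
      ∑' n, residueClass a n / (n : ℝ) ^ x =
        (LFunctionResidueClassAux a x).re + (q.totient : ℝ)⁻¹ / (x - 1) := by
    refine Complex.ofReal_injective ?_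
    simp only [Complex.ofReal_tsum, Complex.ofReal_div, Complex.ofReal_cpow (Nat.cast_nonneg _),
      Complex.ofReal_natCast, Complex.ofReal_add, Complex.ofReal_inv, Complex.ofReal_sub,
      Complex.ofReal_one]
    simp_rw [← LFunctionResidueClassAux_real ha hx,
      eqOn_LFunctionResidueClassAux ha <| Set.mem_ofPred.mpr (Complex.ofReal_re x ▸ hx),
      sub_add_cancel, LSeries, LSeries.term]
    refine tsum_congr fun n ↦ ?_
    split_ifs with hn
    · simp only [hn, residueClass_apply_zero, Complex.ofReal_zero, zero_div]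
    · rfl
  have hc : ContinuousWithinAt (fun x : ℝ ↦ (LFunctionResidueClassAux a x).re) (Set.Ici 1) 1 := by
    have : ContinuousOn (fun x : ℝ ↦ (LFunctionResidueClassAux a x).re) (Set.Ici 1) :=
      Complex.continuous_re.continuousOn.comp (t := Set.univ)
        (continuousOn_LFunctionResidueClassAux a)
        (fun ⦃x⦄ a ↦ trivial) |>.comp Complex.continuous_ofReal.continuousOn fun x hx ↦ by
          simpa only [Set.mem_ofPred_eq, Complex.ofReal_re] using Set.mem_Ici.1 hx
    exact this 1 (Set.mem_Ici.2 le_rfl)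
  have hc' : Tendsto (fun x : ℝ ↦ (LFunctionResidueClassAux a x).re) (𝓝[>] 1)
      (𝓝 (LFunctionResidueClassAux a (1 : ℝ)).re) :=
    hc.tendsto.mono_left (nhdsWithin_mono _ Set.Ioi_subset_Ici_self)
  have h1 : Tendsto (fun x : ℝ => x - 1) (𝓝[>] 1) (𝓝 0) := by
    have : Tendsto (fun x : ℝ => x - 1) (𝓝 1) (𝓝 (1 - 1)) := by
      exact (continuous_id.sub continuous_const).tendsto 1
    rw [sub_self] at this
    exact this.mono_left nhdsWithin_le_nhds
  have h2 := (h1.mul hc').add (tendsto_const_nhds (x := (q.totient : ℝ)⁻¹))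
  rw [zero_mul, zero_add] at h2
  refine h2.congr' ?_
  filter_upwards [self_mem_nhdsWithin] with x hx
  have hx' : (1 : ℝ) < x := hx
  rw [H hx', mul_add, mul_div_cancel₀ _ (by linarith : x - 1 ≠ 0)]

lemma tendsto_nonprime {q : ℕ} [NeZero q] (a : ZMod q) :
    Tendsto (fun x : ℝ => (x - 1) * ∑' n : ℕ, (if n.Prime then 0 else residueClass a n) / (n : ℝ) ^ x)
      (𝓝[>] 1) (𝓝 0) := by
  have hs := summable_residueClass_non_primes_div a
  have h0 : ∀ n : ℕ, 0 ≤ (if n.Prime then 0 else residueClass a n) := by
    intro n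
    split_ifs
    · exact le_rfl
    · exact residueClass_nonneg a n
  have hb : ∀ x : ℝ, 1 < x → ∀ n : ℕ, (if n.Prime then 0 else residueClass a n) / (n : ℝ) ^ x ≤
      (if n.Prime then 0 else residueClass a n) / n := by
    intro x hx n
    rcases n.eq_zero_or_pos with rfl | hn
    · simp
    · refine div_le_div_of_nonneg_left (h0 n) (mod_cast hn) ?_
      conv_lhs => rw [← Real.rpow_one n]
      exact Real.rpow_le_rpow_of_exponent_le (by exact_mod_cast hn) hx.le
  have h1 : Tendsto (fun x : ℝ => (x - 1) * ∑' n : ℕ, (if n.Prime then 0 else residueClass a n) / (n : ℝ))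
      (𝓝[>] 1) (𝓝 0) := by
    have : Tendsto (fun x : ℝ => (x - 1) * ∑' n : ℕ, (if n.Prime then 0 else residueClass a n) / (n : ℝ))
      (𝓝 1) (𝓝 ((1 - 1) * ∑' n : ℕ, (if n.Prime then 0 else residueClass a n) / (n : ℝ))) :=
      ((continuous_id.sub continuous_const).mul continuous_const).tendsto 1
    rw [sub_self, zero_mul] at this
    exact this.mono_left nhdsWithin_le_nhds
  refine squeeze_zero' ?_ ?_ h1
  · filter_upwards [self_mem_nhdsWithin] with x hx
    have hx' : (1 : ℝ) < x := hx
    exact mul_nonneg (by linarith) (tsum_nonneg fun n => div_nonneg (h0 n) (by positivity))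
  · filter_upwards [self_mem_nhdsWithin] with x hx
    have hx' : (1 : ℝ) < x := hx
    refine mul_le_mul_of_nonneg_left ?_ (by linarith)
    exact (Summable.of_nonneg_of_le (fun n => div_nonneg (h0 n) (by positivity)) (hb x hx') hs).tsum_le_tsum
      (hb x hx') hs

lemma summable_residueClass {q : ℕ} [NeZero q] (a : ZMod q) {x : ℝ} (hx : 1 < x) :
    Summable fun n : ℕ => residueClass a n / (n : ℝ) ^ x :=
  LSeries.summable_real_of_abscissaOfAbsConv_lt <|
    (abscissaOfAbsConv_residueClass_le_one a).trans_lt <| mod_cast hx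

/-- The primes `p ≡ 1 mod M` have density `1/φ(M)`. -/
lemma hasMean_class {M : ℕ} (hM : 0 < M) :
    HasMean (onClass M fun _ => 1) ((M.totient : ℝ)⁻¹) := by
  classical
  have : NeZero M := ⟨hM.ne'⟩
  have hterm : ∀ (x : ℝ) (n : ℕ), (if n.Prime then residueClass (1 : ZMod M) n else 0) / (n : ℝ) ^ x =
      ({p : ℕ | p.Prime}.indicator (fun n : ℕ => onClass M (fun _ => 1) n * (Real.log n / (n : ℝ) ^ x))) n := by
    intro x n
    by_cases hn : n.Prime
    · rw [if_pos hn, Set.indicator_of_mem (by exact hn)]
      unfold onClass residueClass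
      by_cases hc : n ≡ 1 [MOD M]
      · have hc' : n ∈ {n : ℕ | (n : ZMod M) = 1} := by
          have := (ZMod.natCast_eq_natCast_iff n 1 M).2 hc
          simpa using this
        rw [if_pos hc, Set.indicator_of_mem hc', one_mul]
        rw [ArithmeticFunction.vonMangoldt_apply_prime hn]
      · have hc' : n ∉ {n : ℕ | (n : ZMod M) = 1} := by
          intro h
          apply hc
          apply (ZMod.natCast_eq_natCast_iff n 1 M).1
          simpa using h
        rw [if_neg hc, Set.indicator_of_notMem hc', zero_div, zero_mul]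
    · rw [if_neg hn, Set.indicator_of_notMem (by exact hn), zero_div]
  have hsp : ∀ x : ℝ, 1 < x → Summable fun n : ℕ =>
      (if n.Prime then residueClass (1 : ZMod M) n else 0) / (n : ℝ) ^ x := by
    intro x hx
    refine Summable.of_nonneg_of_le (fun n => ?_) (fun n => ?_) (summable_residueClass (1 : ZMod M) hx)
    · refine div_nonneg ?_ (by positivity)
      split_ifs
      · exact residueClass_nonneg _ n
      · exact le_rfl
    · refine div_le_div_of_nonneg_right ?_ (by positivity)
      split_ifs
      · exact le_rfl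
      · exact residueClass_nonneg _ n
  have hsn : ∀ x : ℝ, 1 < x → Summable fun n : ℕ =>
      (if n.Prime then 0 else residueClass (1 : ZMod M) n) / (n : ℝ) ^ x := by
    intro x hx
    refine Summable.of_nonneg_of_le (fun n => ?_) (fun n => ?_) (summable_residueClass (1 : ZMod M) hx)
    · refine div_nonneg ?_ (by positivity)
      split_ifs
      · exact le_rfl
      · exact residueClass_nonneg _ n
    · refine div_le_div_of_nonneg_right ?_ (by positivity)
      split_ifs
      · exact residueClass_nonneg _ n
      · exact le_rfl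
  have hsum : ∀ x : ℝ, ∑' p : Nat.Primes, onClass M (fun _ => 1) p * wt x p =
      ∑' n : ℕ, (if n.Prime then residueClass (1 : ZMod M) n else 0) / (n : ℝ) ^ x := by
    intro x
    simp only [hterm]
    exact tsum_subtype {p : ℕ | p.Prime} (fun n : ℕ => onClass M (fun _ => 1) n * (Real.log n / (n : ℝ) ^ x))
  rw [hasMean_iff]
  refine ⟨fun s hs => ?_, ?_⟩
  · have h1 := hsp s hs
    simp only [hterm] at h1
    exact (summable_subtype_iff_indicator (s := {p : ℕ | p.Prime})).2 h1
  · have h1 := tendsto_residueClass (q := M) (a := 1) isUnit_one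
    have h2 := tendsto_nonprime (q := M) (1 : ZMod M)
    have h3 := h1.sub h2
    rw [sub_zero] at h3
    refine h3.congr' ?_
    filter_upwards [self_mem_nhdsWithin] with x hx
    have hx' : (1 : ℝ) < x := hx
    rw [← mul_sub, hsum, ← (summable_residueClass (1 : ZMod M) hx').tsum_sub (hsn x hx')]
    congr 1
    refine tsum_congr fun n => ?_
    rw [← sub_div]
    congr 1
    split_ifs <;> ring

lemma onClass_one (f : ℕ → ℝ) : onClass 1 f = f := by
  classical
  funext p
  unfold onClass
  rw [if_pos (Nat.modEq_one)]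

lemma hasMean_one : HasMean (fun _ => 1) 1 := by
  have := hasMean_class (M := 1) one_pos
  rw [onClass_one] at this
  simpa using this

lemma onClass_add (M : ℕ) (f g : ℕ → ℝ) (p : ℕ) :
    onClass M (fun p => f p + g p) p = onClass M f p + onClass M g p := by
  unfold onClass
  split_ifs <;> simp

lemma onClass_apply (M : ℕ) (f : ℕ → ℝ) (p : ℕ) : onClass M f p = onClass M (fun _ => 1) p * f p := by
  unfold onClass
  split_ifs <;> simp

end Pool.Agent.H74C
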