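import Pool.Agent.W_7742_h74.CaseD

noncomputable section

namespace Pool.Agent.H74C

open Filter Topology ComplexConjugate

namespace TraceSystem

variable {K : Type} [Field K] [NumberField K] (π : TraceSystem K)

section ext

variable (L : Type) [Field L] [NumberField L] [Algebra K L]

/-- The system over a larger field. -/
def lift : TraceSystem L where
  level := π.level
  level_pos := π.level_pos
  ω := π.ω.ringHomComp (algebraMap K L)
  a := fun p => algebraMap K L (π.a p)
  integral := fun p hp hd => (π.integral p hp hd).map (algebraMap K L).toIntAlgHom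
  central := fun p hp hd σ => by
    have := π.central p hp hd (σ.comp (algebraMap K L))
    exact this

variable {π L}

lemma lift_a (p : ℕ) : (π.lift L).a p = algebraMap K L (π.a p) := rfl

lemma lift_good {p : ℕ} : (π.lift L).Good p ↔ π.Good p := Iff.rfl

lemma lift_u (τ : L →+* ℂ) : (π.lift L).u τ = π.u (τ.comp (algebraMap K L)) := by
  funext p
  unfold u
  rw [lift_a]
  rfl

lemma lift_ad (τ : L →+* ℂ) : (π.lift L).ad τ = π.ad (τ.comp (algebraMap K L)) := by
  funext p
  unfold ad
  rw [lift_u]

lemma lift_four (τ : L →+* ℂ) : (π.lift L).four τ = π.four (τ.comp (algebraMap K L)) := by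
  funext p
  unfold four
  rw [lift_u]

lemma lift_same (f g : ℕ → ℝ) : (π.lift L).Same f g ↔ π.Same f g := Iff.rfl

lemma lift_orthogonal (h : π.Orthogonal) : (π.lift L).Orthogonal where
  mean_ad := fun M hM σ => by rw [lift_ad]; exact h.mean_ad M hM _
  mean_four := fun M hM σ => by rw [lift_four]; exact h.mean_four M hM _
  mean_ad_four := fun M hM σ τ => by rw [lift_ad, lift_four]; exact h.mean_ad_four M hM _ _
  ad_ad_same := fun σ τ hs => by
    rw [lift_ad, lift_ad, lift_same] at hs; rw [lift_ad, lift_ad]; exact h.ad_ad_same _ _ hs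
  ad_ad_ne := fun σ τ hs => by
    rw [lift_ad, lift_ad, lift_same] at hs; rw [lift_ad, lift_ad]; exact h.ad_ad_ne _ _ hs
  four_four_same := fun σ τ hs => by
    rw [lift_four, lift_four, lift_same] at hs
    rw [lift_four, lift_four]; exact h.four_four_same _ _ hs
  four_four_ne := fun σ τ hs => by
    rw [lift_four, lift_four, lift_same] at hs
    rw [lift_four, lift_four]; exact h.four_four_ne _ _ hs

lemma lift_multiplicityOne (h : π.MultiplicityOne) : (π.lift L).MultiplicityOne := by
  intro σ τ hs
  rw [lift_ad, lift_ad, lift_same] at hs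
  obtain ⟨M, hM, χ, hχ⟩ := h _ _ hs
  refine ⟨M, hM, χ, fun p hp hd => ?_⟩
  have := hχ p (lift_good.1 hp) hd
  rw [lift_a]
  exact this

end ext

lemma exists_galois (K : Type) [Field K] [NumberField K] :
    ∃ (L : Type) (_ : Field L) (_ : NumberField L) (_ : Algebra K L), IsGalois ℚ L := by
  have hn : Normal ℚ (AlgebraicClosure K) := by
    have : Algebra.IsAlgebraic ℚ (AlgebraicClosure K) :=
      Algebra.IsAlgebraic.trans ℚ K (AlgebraicClosure K)
    have : IsAlgClosure ℚ (AlgebraicClosure K) := ⟨inferInstance, inferInstance⟩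
    exact IsAlgClosure.normal ℚ (AlgebraicClosure K)
  refine ⟨IntermediateField.normalClosure ℚ K (AlgebraicClosure K), inferInstance, ?_,
    inferInstance, ?_⟩
  · exact { to_charZero := inferInstance, to_finiteDimensional := inferInstance }
  · have hnn := normalClosure.normal ℚ K (AlgebraicClosure K)
    have hnn' : Normal ℚ (IntermediateField.normalClosure ℚ K (AlgebraicClosure K)) := by
      convert hnn using 1
      exact Subsingleton.elim _ _
    exact { to_isSeparable := inferInstance, to_normal := hnn' }

lemma HasDensity.exists {P : ℕ → Prop} {c : ℝ} (h : HasDensity P c) (hc : 0 < c)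
    (S : Finset ℕ) : ∃ p, p.Prime ∧ p ∉ S ∧ P p := by
  classical
  by_contra hcon
  push Not at hcon
  unfold HasDensity at h
  have h2 := h.congr (g := fun _ => 0) S (fun p hp hpS => by
    rw [if_neg (hcon p hp hpS)])
  have := h2.neg.nonneg (fun p hp => by norm_num)
  linarith

/-- The theorem. -/
theorem main (hO : π.Orthogonal) (hM : π.MultiplicityOne) : π.Icosahedral := by
  classical
  obtain ⟨L, _, _, _, _⟩ := exists_galois K
  have hO' := lift_orthogonal (L := L) hO
  have hM' := lift_multiplicityOne (L := L) hM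
  obtain ⟨h4, h2⟩ := icosahedral_of_galois hO' hM'
  obtain ⟨σ0, hσ0⟩ : ∃ σ, σ ∉ fixer (π.lift L) (π.lift L).yy := by
    by_contra hcon
    push Not at hcon
    exact h2 (by ext x; simp [hcon x])
  -- extension of embeddings
  have hext : ∀ σ : K →+* ℂ, ∃ τ : L →+* ℂ, τ.comp (algebraMap K L) = σ := by
    intro σ
    let := σ.toAlgebra
    have : Algebra.IsAlgebraic K L := by
      have : Algebra.IsAlgebraic ℚ L := inferInstance
      exact Algebra.IsAlgebraic.tower_top (K := ℚ) K
    let f : L →ₐ[K] ℂ := IsAlgClosed.lift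
    exact ⟨f.toRingHom, by ext x; exact f.commutes x⟩
  have dens : ∀ (v c : ℝ), (∀ τ : L →+* ℂ, HasDensity (fun p => (π.lift L).u τ p = v) c) →
      ∀ σ, HasDensity (fun p => π.u σ p = v) c := by
    intro v c h σ
    obtain ⟨τ, rfl⟩ := hext σ
    have := h τ
    rwa [lift_u] at this
  have hg := dens _ _ fun τ => dens_golden τ hO' h4 hσ0
  refine ⟨?_, ?_, dens _ _ fun τ => dens_zero τ hO' h4 hσ0, dens _ _ fun τ => dens_one τ hO' h4 hσ0,
    dens _ _ fun τ => dens_four τ hO' h4 hσ0, hg, dens _ _ fun τ => dens_golden' τ hO' h4 hσ0⟩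
  · -- the square root of five
    obtain ⟨S, hS⟩ := π.exists_bad
    have σ : K →+* ℂ := Classical.choice inferInstance
    obtain ⟨p, hp, hpS, hu⟩ := HasDensity.exists (hg σ) (by norm_num) S
    have hgood := hS p hp hpS
    refine ⟨2 * π.yy p - 3, ?_⟩
    apply σ.injective
    have h5 := sq5
    rw [map_pow, map_sub, map_mul, map_ofNat, map_ofNat, map_ofNat, emb_yy hgood σ, hu]
    have : (2 * ((3 + √5) / 2) - 3) ^ 2 = (5 : ℝ) := by nlinarith
    exact_mod_cast this
  · intro p hp
    rcases dichotomy (π := π.lift L) h4 (lift_good.2 hp) with ⟨n, hn⟩ | h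
    · left
      refine ⟨n, fun σ => ?_⟩
      obtain ⟨τ, rfl⟩ := hext σ
      have := u_of_yy (π := π.lift L) (lift_good.2 hp) (q := n) (by rw [hn]; norm_cast) τ
      rw [lift_u] at this
      simpa using this
    · right
      intro σ
      obtain ⟨τ, rfl⟩ := hext σ
      have h1 := congrArg τ h
      rw [map_add, map_sub, map_mul, map_pow, map_one, map_ofNat, map_zero,
        emb_yy (π := π.lift L) (lift_good.2 hp) τ, lift_u] at h1
      exact real_golden (by exact_mod_cast h1)

end TraceSystem

end Pool.Agent.H74C
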