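import Pool.Agent.W_7742_h74.Stmt

noncomputable section

namespace Pool.Agent.H74C

open Filter Topology

/-- weight -/
def wt (s : ℝ) (p : Nat.Primes) : ℝ := Real.log p / (p : ℝ) ^ s

lemma wt_nonneg (s : ℝ) (p : Nat.Primes) : 0 ≤ wt s p := by
  unfold wt
  have : (1 : ℝ) ≤ (p : ℝ) := by exact_mod_cast p.2.one_lt.le
  exact div_nonneg (Real.log_nonneg this) (by positivity)

lemma hasMean_iff {f : ℕ → ℝ} {c : ℝ} : HasMean f c ↔
    (∀ s : ℝ, 1 < s → Summable fun p : Nat.Primes => f p * wt s p) ∧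
    Tendsto (fun s : ℝ => (s - 1) * ∑' p : Nat.Primes, f p * wt s p) (𝓝[>] 1) (𝓝 c) := by
  unfold HasMean wt
  simp only [mul_div_assoc]

lemma HasMean.add {f g : ℕ → ℝ} {a b : ℝ} (hf : HasMean f a) (hg : HasMean g b) :
    HasMean (fun p => f p + g p) (a + b) := by
  rw [hasMean_iff] at *
  refine ⟨fun s hs => ?_, ?_⟩
  · simpa only [add_mul] using (hf.1 s hs).add (hg.1 s hs)
  · refine (hf.2.add hg.2).congr' ?_
    filter_upwards [self_mem_nhdsWithin] with s hs
    rw [← mul_add, ← (hf.1 s hs).tsum_add (hg.1 s hs)]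
    simp only [add_mul]

lemma HasMean.const_mul {f : ℕ → ℝ} {a : ℝ} (c : ℝ) (hf : HasMean f a) :
    HasMean (fun p => c * f p) (c * a) := by
  rw [hasMean_iff] at *
  refine ⟨fun s hs => ?_, ?_⟩
  · simpa only [mul_assoc] using (hf.1 s hs).mul_left c
  · refine (hf.2.const_mul c).congr' ?_
    filter_upwards [self_mem_nhdsWithin] with s hs
    simp only [mul_assoc, tsum_mul_left]
    ring

lemma HasMean.neg {f : ℕ → ℝ} {a : ℝ} (hf : HasMean f a) : HasMean (fun p => - f p) (-a) := by
  have := hf.const_mul (-1)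
  simpa only [neg_one_mul] using this

lemma HasMean.sub {f g : ℕ → ℝ} {a b : ℝ} (hf : HasMean f a) (hg : HasMean g b) :
    HasMean (fun p => f p - g p) (a - b) := by
  have := hf.add hg.neg
  simpa only [sub_eq_add_neg] using this

lemma hasMean_zero : HasMean (fun _ => 0) 0 := by
  rw [hasMean_iff]
  refine ⟨fun s hs => ?_, ?_⟩
  · simpa using summable_zero
  · simp

lemma HasMean.sum {ι : Type*} (t : Finset ι) {f : ι → ℕ → ℝ} {a : ι → ℝ}
    (hf : ∀ i ∈ t, HasMean (f i) (a i)) : HasMean (fun p => ∑ i ∈ t, f i p) (∑ i ∈ t, a i) := by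
  classical
  induction t using Finset.induction_on with
  | empty => simpa using hasMean_zero
  | insert i t hi ih =>
    simp only [Finset.sum_insert hi]
    exact (hf i (Finset.mem_insert_self _ _)).add
      (ih fun j hj => hf j (Finset.mem_insert_of_mem hj))

/-- Changing `f` at finitely many primes. -/
lemma HasMean.congr {f g : ℕ → ℝ} {c : ℝ} (hf : HasMean f c) (S : Finset ℕ)
    (h : ∀ p, p.Prime → p ∉ S → f p = g p) : HasMean g c := by
  classical
  -- the difference is finitely supported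
  have key : HasMean (fun p => g p - f p) 0 := by
    rw [hasMean_iff]
    have hsupp : ∀ s : ℝ, ∀ p : Nat.Primes, p ∉ (S.preimage (fun p : Nat.Primes => (p : ℕ))
        (Subtype.val_injective.injOn)) → (g p - f p) * wt s p = 0 := by
      intro s p hp
      have : (p : ℕ) ∉ S := fun h' => hp (by simpa using h')
      rw [h p p.2 this, sub_self, zero_mul]
    refine ⟨fun s hs => summable_of_ne_finset_zero (hsupp s), ?_⟩
    have hsum : ∀ s : ℝ, ∑' p : Nat.Primes, (g p - f p) * wt s p =
        ∑ p ∈ (S.preimage (fun p : Nat.Primes => (p : ℕ)) (Subtype.val_injective.injOn)),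
          (g p - f p) * wt s p := fun s => tsum_eq_sum (hsupp s)
    simp only [hsum]
    have hcont : ContinuousAt (fun s : ℝ => (s - 1) * ∑ p ∈ (S.preimage (fun p : Nat.Primes => (p : ℕ))
        (Subtype.val_injective.injOn)), (g p - f p) * wt s p) 1 := by
      refine ContinuousAt.mul (by fun_prop) ?_
      refine tendsto_finsetSum _ fun p _ => ?_
      have : (0 : ℝ) < (p : ℝ) := by exact_mod_cast p.2.pos
      have h1 : ContinuousAt (fun s : ℝ => (p : ℝ) ^ s) 1 :=
        Real.continuousAt_const_rpow this.ne'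
      exact continuousAt_const.mul (ContinuousAt.div continuousAt_const h1 (by positivity))
    have := hcont.tendsto
    simp only [sub_self, zero_mul] at this
    exact this.mono_left nhdsWithin_le_nhds
  have := hf.add key
  simpa using this

lemma HasMean.congr' {f g : ℕ → ℝ} {c : ℝ} (hf : HasMean f c)
    (h : ∀ p, p.Prime → f p = g p) : HasMean g c :=
  hf.congr ∅ fun p hp _ => h p hp

lemma HasMean.nonneg {f : ℕ → ℝ} {c : ℝ} (hf : HasMean f c) (h : ∀ p, p.Prime → 0 ≤ f p) :
    0 ≤ c := by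
  rw [hasMean_iff] at hf
  refine ge_of_tendsto hf.2 ?_
  filter_upwards [self_mem_nhdsWithin] with s hs
  have : (1 : ℝ) < s := hs
  exact mul_nonneg (by linarith) (tsum_nonneg fun p => mul_nonneg (h p p.2) (wt_nonneg s p))

lemma HasMean.nonneg' {f : ℕ → ℝ} {c : ℝ} (hf : HasMean f c) (S : Finset ℕ)
    (h : ∀ p, p.Prime → p ∉ S → 0 ≤ f p) : 0 ≤ c := by
  classical
  have : HasMean (fun p => if p ∈ S then 0 else f p) c :=
    hf.congr S fun p _ hpS => by rw [if_neg hpS]
  refine this.nonneg fun p hp => ?_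
  split_ifs with hS
  · exact le_rfl
  · exact h p hp hS

/-- Squeeze. -/
lemma HasMean.squeeze {f g : ℕ → ℝ} (hf : HasMean f 0) (h : ∀ p, p.Prime → |g p| ≤ f p) :
    HasMean g 0 := by
  rw [hasMean_iff] at *
  have hs1 : ∀ s : ℝ, 1 < s → Summable fun p : Nat.Primes => g p * wt s p := by
    intro s hs
    refine Summable.of_norm_bounded (hf.1 s hs) fun p => ?_
    rw [Real.norm_eq_abs, abs_mul, abs_of_nonneg (wt_nonneg s p)]
    exact mul_le_mul_of_nonneg_right (h p p.2) (wt_nonneg s p)
  refine ⟨hs1, ?_⟩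
  refine squeeze_zero_norm' ?_ hf.2
  filter_upwards [self_mem_nhdsWithin] with s hs
  have hs' : (1 : ℝ) < s := hs
  rw [norm_mul, Real.norm_of_nonneg (by linarith : (0 : ℝ) ≤ s - 1)]
  refine mul_le_mul_of_nonneg_left ?_ (by linarith)
  refine tsum_of_norm_bounded (hf.1 s hs').hasSum fun p => ?_
  rw [Real.norm_eq_abs, abs_mul, abs_of_nonneg (wt_nonneg s p)]
  exact mul_le_mul_of_nonneg_right (h p p.2) (wt_nonneg s p)

lemma HasMean.squeeze' {f g : ℕ → ℝ} (hf : HasMean f 0) (S : Finset ℕ)
    (h : ∀ p, p.Prime → p ∉ S → |g p| ≤ f p) : HasMean g 0 := by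
  classical
  have h1 : HasMean (fun p => if p ∈ S then 0 else f p) 0 :=
    hf.congr S fun p _ hpS => by rw [if_neg hpS]
  have h2 : HasMean (fun p => if p ∈ S then 0 else g p) 0 := by
    refine h1.squeeze fun p hp => ?_
    split_ifs with hS
    · simp
    · exact h p hp hS
  exact h2.congr S fun p _ hpS => by rw [if_neg hpS]

end Pool.Agent.H74C
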