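import Mathlib

/-! Definitions for the statement: mean values over the primes, systems of Hecke traces of cusp forms
on `GL_2`, Selberg orthogonality for the adjoint square and the fourth symmetric power, icosahedral
type. -/

noncomputable section

namespace Pool.Agent.H74C

open Filter Topology ComplexConjugate

/-- `f` has the mean value `c` over the primes (in the sense of Dirichlet, with the weights
`log p / p ^ s`, `s → 1`): the series `∑ f(p) log p / p ^ s` converges for `s > 1` and
`(s - 1) ∑ f(p) log p / p ^ s` tends to `c` for `s → 1`.  If the `f(p)` are the coefficients at the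
primes of `- L'/L (s)` divided by `log p`, then `c` is the order of the pole of `L` at `s = 1`. -/
def HasMean (f : ℕ → ℝ) (c : ℝ) : Prop :=
  (∀ s : ℝ, 1 < s → Summable fun p : Nat.Primes => f p * Real.log p / (p : ℝ) ^ s) ∧
    Tendsto (fun s : ℝ => (s - 1) * ∑' p : Nat.Primes, f p * Real.log p / (p : ℝ) ^ s)
      (𝓝[>] 1) (𝓝 c)

/-- The function `f` on the primes `p ≡ 1 mod M`, and `0` on the other ones. -/
def onClass (M : ℕ) (f : ℕ → ℝ) (p : ℕ) : ℝ := by
  classical exact if p ≡ 1 [MOD M] then f p else 0

/-- The set of the primes with the property `P` has the density `c`. -/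
def HasDensity (P : ℕ → Prop) (c : ℝ) : Prop := by
  classical exact HasMean (fun p => if P p then 1 else 0) c

/-- A system of Hecke traces: algebraic integers `a p` of the number field `K` for the primes `p` not
dividing the level, and a Dirichlet character `ω` modulo the level with values in `K` (the central
character), such that for all embeddings `σ` the complex conjugate of `σ (a p)` is
`σ (a p) / σ (ω p)`. -/
structure TraceSystem (K : Type) [Field K] [NumberField K] where
  /-- the level -/
  level : ℕ
  level_pos : 0 < level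
  /-- the central character -/
  ω : DirichletCharacter K level
  /-- the traces -/
  a : ℕ → K
  integral : ∀ p, p.Prime → ¬ p ∣ level → IsIntegral ℤ (a p)
  central : ∀ p, p.Prime → ¬ p ∣ level → ∀ σ : K →+* ℂ, conj (σ (a p)) * σ (ω p) = σ (a p)

namespace TraceSystem

variable {K : Type} [Field K] [NumberField K] (π : TraceSystem K)

/-- The prime `p` does not divide the level. -/
def Good (p : ℕ) : Prop := p.Prime ∧ ¬ p ∣ π.level

/-- The square of the absolute value of the conjugate `σ (a p)`. -/
def u (σ : K →+* ℂ) (p : ℕ) : ℝ := ‖σ (π.a p)‖ ^ 2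

/-- The traces `|σ (a p)|^2 - 1` of the adjoint square of the conjugate system. -/
def ad (σ : K →+* ℂ) (p : ℕ) : ℝ := π.u σ p - 1

/-- The traces `|σ (a p)|^4 - 3 |σ (a p)|^2 + 1` of the fourth symmetric power of the conjugate
system, twisted by the inverse of the square of the central character. -/
def four (σ : K →+* ℂ) (p : ℕ) : ℝ := π.u σ p ^ 2 - 3 * π.u σ p + 1

/-- `f` and `g` agree at the primes which do not divide the level. -/
def Same (f g : ℕ → ℝ) : Prop := ∀ p, π.Good p → f p = g p

/-- Selberg orthogonality for the adjoint squares and the fourth symmetric powers of the conjugate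
systems.  (i)-(iii) For all `M`, the functions `ad σ`, `four σ` and `ad σ * four τ` have mean value
`0` over the primes `p ≡ 1 mod M`; (iv) `ad σ * ad τ` has mean value `1` if `ad σ` and `ad τ` agree
and `0` otherwise; (v) `four σ * four τ` has mean value `1` if `four σ` and `four τ` agree and `0`
otherwise. -/
structure Orthogonal : Prop where
  mean_ad : ∀ M : ℕ, 0 < M → ∀ σ, HasMean (onClass M (π.ad σ)) 0
  mean_four : ∀ M : ℕ, 0 < M → ∀ σ, HasMean (onClass M (π.four σ)) 0
  mean_ad_four : ∀ M : ℕ, 0 < M → ∀ σ τ, HasMean (onClass M (π.ad σ * π.four τ)) 0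
  ad_ad_same : ∀ σ τ, π.Same (π.ad σ) (π.ad τ) → HasMean (π.ad σ * π.ad τ) 1
  ad_ad_ne : ∀ σ τ, ¬ π.Same (π.ad σ) (π.ad τ) → HasMean (π.ad σ * π.ad τ) 0
  four_four_same : ∀ σ τ, π.Same (π.four σ) (π.four τ) → HasMean (π.four σ * π.four τ) 1
  four_four_ne : ∀ σ τ, ¬ π.Same (π.four σ) (π.four τ) → HasMean (π.four σ * π.four τ) 0

/-- Multiplicity one for `SL_2`: two conjugate systems with the same adjoint square differ by a twist
by a Dirichlet character. -/
def MultiplicityOne : Prop :=
  ∀ σ τ : K →+* ℂ, π.Same (π.ad σ) (π.ad τ) → ∃ M : ℕ, 0 < M ∧ ∃ χ : DirichletCharacter ℂ M,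
    ∀ p, π.Good p → ¬ p ∣ M → σ (π.a p) = χ p * τ (π.a p)

/-- `f` vanishes at the primes with `χ p ≠ 1`, for a Dirichlet character `χ ≠ 1` (if the `f p` are the
traces of a representation, this means that it is isomorphic to its twist by `χ`). -/
def SelfTwist (f : ℕ → K) : Prop :=
  ∃ M : ℕ, 0 < M ∧ ∃ χ : DirichletCharacter ℂ M, χ ≠ 1 ∧
    ∀ p, π.Good p → ¬ p ∣ M → χ p ≠ 1 → f p = 0

/-- The system is isomorphic to a twist of itself. -/
def Dihedral : Prop := π.SelfTwist π.a

/-- The adjoint square is isomorphic to a twist of itself. -/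
def Tetrahedral : Prop := π.SelfTwist fun p => π.a p ^ 2 - π.ω p

/-- The symmetric cube is isomorphic to a twist of itself. -/
def Octahedral : Prop := π.SelfTwist fun p => π.a p ^ 3 - 2 * π.ω p * π.a p

/-- The theorems of Gelbart, Jacquet, Kim and Shahidi (the adjoint square and the fourth symmetric
power are cuspidal automorphic representations of `GL_3` and `GL_5` if `π` is not dihedral,
tetrahedral or octahedral) and the Rankin-Selberg theory (Selberg orthogonality for these
representations), for the conjugate systems of `π`. -/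
def KimShahidi : Prop :=
  ¬ π.Dihedral → ¬ π.Tetrahedral → ¬ π.Octahedral → π.Orthogonal

/-- The system is of icosahedral type: `K` contains `√5`; for all primes `p` which do not divide the
level, `|σ (a p)|^2` is a rational integer for all `σ`, the same one, or it is `(3 + √5) / 2` or
`(3 - √5) / 2` for all `σ`; and for all `σ` the primes with `|σ (a p)|^2 = 0`, `1`, `4`,
`(3 + √5) / 2` and `(3 - √5) / 2` have the densities `1/4`, `1/3`, `1/60`, `1/5` and `1/5`. -/
structure Icosahedral : Prop where
  sqrt_five : ∃ z : K, z ^ 2 = 5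
  values : ∀ p, π.Good p → (∃ n : ℕ, ∀ σ, π.u σ p = n) ∨
    ∀ σ, π.u σ p = (3 + √5) / 2 ∨ π.u σ p = (3 - √5) / 2
  zero : ∀ σ, HasDensity (fun p => π.u σ p = 0) (1 / 4)
  one : ∀ σ, HasDensity (fun p => π.u σ p = 1) (1 / 3)
  four' : ∀ σ, HasDensity (fun p => π.u σ p = 4) (1 / 60)
  golden : ∀ σ, HasDensity (fun p => π.u σ p = (3 + √5) / 2) (1 / 5)
  golden' : ∀ σ, HasDensity (fun p => π.u σ p = (3 - √5) / 2) (1 / 5)

end TraceSystem

end Pool.Agent.H74C
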